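import Pool.Agent.Run7.h456.ExtE

/-!
# The abscissa of continuation of the L-functions of Eisenstein families of `GSp_{2n}`

Let `M = GL_{a_1} × … × GL_{a_k} × GSp_{2m}` be a standard Levi subgroup of `GSp_{2n}`, `n = a_1 + … + a_k + m`, and
`σ = σ_1 ⊗ … ⊗ σ_k ⊗ τ` an automorphic representation of `M`. For `(z₀, z) ∈ ℂ × ℂ^k` let `π_z` be an automorphic
constituent of the representation of `GSp_{2n}` induced from `σ_1 |det|^{z_1} ⊗ … ⊗ σ_k |det|^{z_k} ⊗ τ |λ|^{z₀}`
(by Langlands these are all the automorphic representations of `GSp_{2n}`, if `M` and cuspidal `σ` vary). If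
`(t₀(p); t_1(p), …, t_n(p))` is the Satake parameter of `σ` in the dual torus of `GSp_{2n}`, the one of `π_z` is
`(t₀(p) p^{-z₀}; t_i(p) p^{-z_{b(i)}})`, where `b(i)` is the block of the index `i` (and `t_i(p)` is unchanged if `i`
belongs to `GSp_{2m}`). For an algebraic representation `ρ` of `GSpin_{2n+1}(ℂ)`, given by its weights, let `ρ_κ`,
`κ ∈ ℤ × ℤ^k`, be the part of the restriction of `ρ` to the dual group of `M` on which the unramified characters
act by `κ`; so `L_S(s, π_z, ρ) = ∏_κ L_S(s + κ·z, σ, ρ_κ)`.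

Let `β(π, ρ) ∈ [-∞, ∞)` be the abscissa of meromorphic continuation: the largest half-plane to which `L_S(s, π, ρ)`
continues meromorphically is `Re s > β(π, ρ)`; so Q1 for `π` and `ρ` is `β(π, ρ) = -∞`.

**Theorem.** For every `x = (x₀, x_1, …, x_k) ∈ ℝ^{k+1}`

`β(π_{x+iy}, ρ) = max_κ (β(σ, ρ_κ) - κ·x)`

* for **all** `y ∈ ℝ^{k+1}`, if the maximum is attained for one `κ` only, that is for all `x` outside of the
  tropical hypersurface defined by the numbers `β(σ, ρ_κ)`;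
* for all `x` without exception: for all `y` outside of a set of Lebesgue measure `0` and of first category.

The inequality `≤` always holds. In particular there is a zero-one law: either Q1 holds for `ρ` and all `π_z`,
`z ∈ ℂ^{k+1}`, and for all Levi constituents `L_S(s, σ, ρ_κ)`, or for every real `x` Q1 fails for `ρ` and `π_{x+iy}` for
almost all `y` (unitary `π_{iy}`, `x = 0`, included), and for all `y` if `x` is not on a hypersurface. One single
constituent without a continuation destroys the continuation of almost all members of the family; natural boundaries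
of different factors cannot cancel.

Idea. (1) If `f` is holomorphic and without zeros for large real part and `f(s + ih)/f(s)` continues to `Re s > q`
for all (or all small) real `h`, then `f` continues to `Re s > q`. (2) By (1) and induction the factors of a product
`∏_κ f_κ(s + i κ·y)` can be separated if it continues for all `y` in a set which meets its small translates in
sets of the same kind: this holds for measurable sets of positive measure (Steinhaus) and for sets of second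
category with the Baire property. (3) The set of the `y` for which the product continues is a Borel set, since
continuation to a disc with a bounded number of poles and a given bound is a closed condition on `y`.
-/

set_option autoImplicit false

open Filter Topology Complex MeasureTheory

namespace Pool.Agent.Results.MP_eea520_nt.AbscissaLaw

/-- a character `(w₀; w_1, …, w_n)` of the dual torus `(ℂˣ)^{n+1}` of `GSp_{2n}` -/
abbrev Weight (n : ℕ) : Type := ℤ × (Fin n → ℤ)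

/-- its value `t₀^{w₀} t_1^{w_1} ⋯ t_n^{w_n}` -/
noncomputable def value {n : ℕ} (t₀ : ℂ) (t : Fin n → ℂ) (w : Weight n) : ℂ :=
  t₀ ^ w.1 * ∏ i, t i ^ w.2 i

/-- `det(1 - ρ(t₀; t) X)⁻¹` for the representation `ρ` given by the multiset of its weights -/
noncomputable def factor {n : ℕ} (ρ : Multiset (Weight n)) (t₀ : ℂ) (t : Fin n → ℂ) (X : ℂ) : ℂ :=
  (ρ.map fun w => (1 - value t₀ t w * X)⁻¹).prod

/-- The Euler product `∏_{p ∉ S} det(1 - ρ(t₀(p); t(p)) p^{-s})⁻¹` converges for large real part and extends to a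
meromorphic function on `U`. -/
def Continues {n : ℕ} (U : Set ℂ) (S : Finset ℕ) (t₀ : ℕ → ℂ) (t : ℕ → Fin n → ℂ)
    (ρ : Multiset (Weight n)) : Prop :=
  ∃ L : ℂ → ℂ, MeromorphicOn L U ∧ ∃ c : ℝ, ∀ s : ℂ, c < s.re →
    HasProd (fun p : {p : ℕ // p.Prime ∧ p ∉ S} => factor ρ (t₀ p) (t p) ((p : ℂ) ^ (-s))) (L s)

/-- the `t`-coordinates for `p ∉ S` are polynomially bounded, with their inverses -/
def Bounded {n : ℕ} (S : Finset ℕ) (t₀ : ℕ → ℂ) (t : ℕ → Fin n → ℂ) : Prop :=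
  ∃ A : ℝ, ∀ p : ℕ, p.Prime → p ∉ S →
    ((p : ℝ) ^ (-A) ≤ ‖t₀ p‖ ∧ ‖t₀ p‖ ≤ (p : ℝ) ^ A) ∧
    ∀ i, (p : ℝ) ^ (-A) ≤ ‖t p i‖ ∧ ‖t p i‖ ≤ (p : ℝ) ^ A

/-- the coordinate `t₀` after the twist by `|λ|^{z₀}` -/
noncomputable def twist₀ (z₀ : ℂ) (t₀ : ℕ → ℂ) (p : ℕ) : ℂ := t₀ p * (p : ℂ) ^ (-z₀)

/-- the coordinates `t_i` after the twists by `|det|^{z_j}`; `b i = some j` if `i` belongs to the block `GL_{a_j}`
and `b i = none` if `i` belongs to `GSp_{2m}` -/
noncomputable def twist {n k : ℕ} (b : Fin n → Option (Fin k)) (z : Fin k → ℂ)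
    (t : ℕ → Fin n → ℂ) (p : ℕ) (i : Fin n) : ℂ :=
  t p i * (p : ℂ) ^ (-((b i).elim 0 z))

/-- the restriction of a weight to the unramified characters of `M`: `w₀` and, for each block `j`, the sum of the
`w_i` with `i` in the block -/
def central {n k : ℕ} (b : Fin n → Option (Fin k)) (w : Weight n) : ℤ × (Fin k → ℤ) :=
  (w.1, fun j => ∑ i with b i = some j, w.2 i)

/-- the constituent `ρ_κ` -/
def part {n k : ℕ} (b : Fin n → Option (Fin k)) (κ : ℤ × (Fin k → ℤ)) (ρ : Multiset (Weight n)) :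
    Multiset (Weight n) :=
  ρ.filter fun w => central b w = κ

/-- the abscissa of meromorphic continuation, `-∞` if there is a continuation to `ℂ` -/
noncomputable def abscissa {n : ℕ} (S : Finset ℕ) (t₀ : ℕ → ℂ) (t : ℕ → Fin n → ℂ)
    (ρ : Multiset (Weight n)) : EReal :=
  sInf {q : EReal | Continues {s : ℂ | q < (s.re : EReal)} S t₀ t ρ}

/-- `κ·x` -/
noncomputable def pairing {k : ℕ} (κ : ℤ × (Fin k → ℤ)) (x : ℝ × (Fin k → ℝ)) : ℝ :=
  κ.1 * x.1 + ∑ j, κ.2 j * x.2 j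

/-- the abscissa `β(π_{x+iy}, ρ)` of the twisted family -/
noncomputable def abscissaTwist {n k : ℕ} (b : Fin n → Option (Fin k)) (S : Finset ℕ)
    (t₀ : ℕ → ℂ) (t : ℕ → Fin n → ℂ) (ρ : Multiset (Weight n)) (x y : ℝ × (Fin k → ℝ)) : EReal :=
  abscissa S (twist₀ (x.1 + y.1 * I) t₀) (twist b (fun j => x.2 j + y.2 j * I) t) ρ

/-- `max_κ (β(σ, ρ_κ) - κ·x)` -/
noncomputable def maximum {n k : ℕ} (b : Fin n → Option (Fin k)) (S : Finset ℕ)
    (t₀ : ℕ → ℂ) (t : ℕ → Fin n → ℂ) (ρ : Multiset (Weight n)) (x : ℝ × (Fin k → ℝ)) : EReal :=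
  ⨆ κ : ℤ × (Fin k → ℤ), (abscissa S t₀ t (part b κ ρ) - (pairing κ x : ℝ))

section

open Run7.h456

variable {n k : ℕ} {b : Fin n → Option (Fin k)} {S : Finset ℕ} {t₀ : ℕ → ℂ} {t : ℕ → Fin n → ℂ}
  {ρ : Multiset (Weight n)}

/-- the exponent `κ·z` -/
noncomputable def dot (κ : ℤ × (Fin k → ℤ)) (z₀ : ℂ) (z : Fin k → ℂ) : ℂ :=
  κ.1 * z₀ + ∑ j, κ.2 j * z j

theorem value_twist (p : PS S) (z₀ : ℂ) (z : Fin k → ℂ) (w : Weight n) :
    value (twist₀ z₀ t₀ p) (twist b z t p) w =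
      value (t₀ p) (t p) w * ((p : ℕ) : ℂ) ^ (-(dot (central b w) z₀ z)) := by
  have hp0 : ((p : ℕ) : ℂ) ≠ 0 := by exact_mod_cast p.pos.ne'
  unfold value twist₀ twist dot central
  simp only
  rw [mul_zpow, ← cpow_mul_int]
  have e1 : ∏ i, (t p i * ((p : ℕ) : ℂ) ^ (-((b i).elim 0 z))) ^ w.2 i =
      (∏ i, t p i ^ w.2 i) * ((p : ℕ) : ℂ) ^ (∑ i, -((b i).elim 0 z) * w.2 i) := by
    rw [cpow_fsum hp0, ← Finset.prod_mul_distrib]
    refine Finset.prod_congr rfl fun i _ => ?_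
    rw [mul_zpow, ← cpow_mul_int]
  have e2 : ∑ i, -((b i).elim 0 z) * (w.2 i : ℂ) =
      -∑ j, ((∑ i with b i = some j, w.2 i : ℤ) : ℂ) * z j := by
    rw [← Finset.sum_neg_distrib]
    have e3 : ∀ j, -(((∑ i with b i = some j, w.2 i : ℤ) : ℂ) * z j) =
        ∑ i, if b i = some j then -(z j * (w.2 i : ℂ)) else 0 := by
      intro j
      rw [← Finset.sum_filter, Finset.sum_neg_distrib]
      push_cast
      rw [Finset.sum_mul]
      congr 1
      exact Finset.sum_congr rfl fun i _ => mul_comm _ _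
    simp only [e3]
    rw [Finset.sum_comm]
    refine Finset.sum_congr rfl fun i _ => ?_
    rcases hb : b i with _ | j
    · simp
    · simp
  rw [e1, e2, neg_add, cpow_add _ _ hp0]
  have e4 : -z₀ * (w.1 : ℂ) = -((w.1 : ℂ) * z₀) := by ring
  rw [e4]
  ring

theorem value_bound (h : Bounded S t₀ t) (w : Weight n) :
    ∃ B : ℝ, ∀ p : PS S, ‖value (t₀ p) (t p) w‖ ≤ ((p : ℕ) : ℝ) ^ B := by
  obtain ⟨A, hA⟩ := h
  refine ⟨A * |w.1| + ∑ i, A * |w.2 i|, fun p => ?_⟩
  obtain ⟨h0, h1⟩ := hA p p.2.1 p.2.2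
  have hp : (0 : ℝ) < (p : ℕ) := by exact_mod_cast p.pos
  have key : ∀ (x : ℂ) (m : ℤ), ((p : ℕ) : ℝ) ^ (-A) ≤ ‖x‖ ∧ ‖x‖ ≤ ((p : ℕ) : ℝ) ^ A →
      ‖x ^ m‖ ≤ ((p : ℕ) : ℝ) ^ (A * |m|) := by
    rintro x m ⟨hx1, hx2⟩
    rw [norm_zpow]
    rcases le_total 0 m with hm | hm
    · lift m to ℕ using hm
      rw [zpow_natCast]
      have e : (A * |((m : ℕ) : ℤ)| : ℝ) = A * m := by simp
      rw [e, Real.rpow_mul hp.le, Real.rpow_natCast]
      exact pow_le_pow_left₀ (norm_nonneg _) hx2 m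
    · obtain ⟨m', rfl⟩ : ∃ m' : ℕ, m = -m' := ⟨m.natAbs, by omega⟩
      rw [zpow_neg, zpow_natCast]
      have e : (A * |(-(m' : ℕ) : ℤ)| : ℝ) = A * m' := by simp
      rw [e, Real.rpow_mul hp.le, Real.rpow_natCast, ← inv_pow]
      refine pow_le_pow_left₀ (inv_nonneg.2 (norm_nonneg _)) ?_ m'
      rw [Real.rpow_neg hp.le] at hx1
      rw [inv_le_comm₀ ((inv_pos.2 (Real.rpow_pos_of_pos hp A)).trans_le hx1)
        (Real.rpow_pos_of_pos hp A)]
      exact hx1
  unfold value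
  rw [norm_mul, norm_prod, Real.rpow_add hp, Real.rpow_sum_of_pos hp]
  refine mul_le_mul (key _ _ h0) ?_ (Finset.prod_nonneg fun i _ => norm_nonneg _)
    (Real.rpow_nonneg hp.le _)
  exact Finset.prod_le_prod (fun i _ => norm_nonneg _) fun i _ => key _ _ (h1 i)

/-- the factor of the constituent `ρ_κ` -/
noncomputable def fac (S : Finset ℕ) (t₀ : ℕ → ℂ) (t : ℕ → Fin n → ℂ)
    (ρ : Multiset (Weight n)) : ℂ → ℂ :=
  meul S (fun (w : Weight n) (p : ℕ) => value (t₀ p) (t p) w) ρ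

/-- `Continues` without the values for large real part -/
theorem continues_iff_untwisted {B : ℝ}
    (hB : ∀ w ∈ ρ, ∀ p : PS S, ‖value (t₀ p) (t p) w‖ ≤ ((p : ℕ) : ℝ) ^ B) (U : Set ℂ) :
    Continues U S t₀ t ρ ↔ ∃ L : ℂ → ℂ, MeromorphicOn L U ∧ ∃ c : ℝ, ∀ s : ℂ, c < s.re →
      L s = fac S t₀ t ρ s := by
  have key : ∀ s : ℂ, B + 1 < s.re → HasProd (fun p : {p : ℕ // p.Prime ∧ p ∉ S} =>
      factor ρ (t₀ p) (t p) ((p : ℂ) ^ (-s))) (fac S t₀ t ρ s) := fun s hs =>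
    meul_hasProd (x := fun (w : Weight n) (p : ℕ) => value (t₀ p) (t p) w) hB hs
  constructor
  · rintro ⟨L, hL, c, hc⟩
    refine ⟨L, hL, max c (B + 1), fun s hs => ?_⟩
    exact (hc s ((le_max_left _ _).trans_lt hs)).unique (key s ((le_max_right _ _).trans_lt hs))
  · rintro ⟨L, hL, c, hc⟩
    refine ⟨L, hL, max c (B + 1), fun s hs => ?_⟩
    rw [hc s ((le_max_left _ _).trans_lt hs)]
    exact key s ((le_max_right _ _).trans_lt hs)

/-- the linear form `κ·y` -/
noncomputable def lin (κ : ℤ × (Fin k → ℤ)) : (ℝ × (Fin k → ℝ)) →ₗ[ℝ] ℝ :=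
  (κ.1 : ℝ) • LinearMap.fst ℝ ℝ (Fin k → ℝ) +
    ∑ j, (κ.2 j : ℝ) • ((LinearMap.proj j).comp (LinearMap.snd ℝ ℝ (Fin k → ℝ)))

theorem lin_apply (κ : ℤ × (Fin k → ℤ)) (y : ℝ × (Fin k → ℝ)) :
    lin κ y = κ.1 * y.1 + ∑ j, κ.2 j * y.2 j := by
  simp [lin]

theorem lin_inj {κ κ' : ℤ × (Fin k → ℤ)} (h : lin κ = lin κ') : κ = κ' := by
  refine Prod.ext ?_ (funext fun j => ?_)
  · have h1 := LinearMap.congr_fun h (1, 0)
    rw [lin_apply, lin_apply] at h1
    simpa using h1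
  · have h1 := LinearMap.congr_fun h (0, Pi.single j 1)
    rw [lin_apply, lin_apply] at h1
    simpa [Pi.single_apply] using h1

theorem dot_eq (κ : ℤ × (Fin k → ℤ)) (y : ℝ × (Fin k → ℝ)) :
    dot κ (y.1 * I) (fun j => y.2 j * I) = (lin κ y : ℝ) * I := by
  rw [lin_apply]
  unfold dot
  push_cast
  rw [add_mul, Finset.sum_mul]
  congr 1
  · ring
  · exact Finset.sum_congr rfl fun j _ => by ring

theorem bound_twist {B : ℝ}
    (hB : ∀ w ∈ ρ, ∀ p : PS S, ‖value (t₀ p) (t p) w‖ ≤ ((p : ℕ) : ℝ) ^ B)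
    (z₀ : ℂ) (z : Fin k → ℂ) : ∃ B' : ℝ, ∀ w ∈ ρ, ∀ p : PS S,
      ‖value (twist₀ z₀ t₀ p) (twist b z t p) w‖ ≤ ((p : ℕ) : ℝ) ^ B' := by
  refine bound_multiset (x := fun w (p : ℕ) => value (twist₀ z₀ t₀ p) (twist b z t p) w) ρ
    fun w hw => ⟨B + -(dot (central b w) z₀ z).re, fun p => ?_⟩
  have hp : (0 : ℝ) < (p : ℕ) := by exact_mod_cast p.pos
  rw [value_twist, norm_mul, p.norm_cpow, Real.rpow_add hp]
  exact mul_le_mul_of_nonneg_right (hB w hw p) (Real.rpow_nonneg hp.le _)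

/-- the product over the constituents -/
theorem fac_twist (z₀ : ℂ) (z : Fin k → ℂ) (s : ℂ) :
    fac S (twist₀ z₀ t₀) (twist b z t) ρ s = ∏ κ ∈ (ρ.map (central b)).toFinset,
      fac S t₀ t (part b κ ρ) (s + dot κ z₀ z) := by
  unfold fac meul part
  rw [prod_fiber (central b) _ ρ (ρ.map (central b)).toFinset fun w hw => by
    rw [Multiset.mem_toFinset]
    exact Multiset.mem_map_of_mem _ hw]
  refine Finset.prod_congr rfl fun κ _ => ?_
  congr 1
  refine Multiset.map_congr rfl fun w hw => ?_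
  rw [← eul_shift]
  unfold eul
  congr 1
  refine tsum_congr fun p => ?_
  beta_reduce
  rw [value_twist, (Multiset.mem_filter.1 hw).2]

theorem part_le (κ : ℤ × (Fin k → ℤ)) {w : Weight n} (hw : w ∈ part b κ ρ) : w ∈ ρ :=
  (Multiset.mem_filter.1 hw).1

end

/-- **The abscissa of continuation in Eisenstein families.** -/
theorem result {n k : ℕ} (b : Fin n → Option (Fin k)) {S : Finset ℕ} {t₀ : ℕ → ℂ}
    {t : ℕ → Fin n → ℂ} (h : Bounded S t₀ t) (ρ : Multiset (Weight n)) :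
    -- the half-plane of continuation of every member of the family, and of the constituents
    (∀ (z₀ : ℂ) (z : Fin k → ℂ) (q : EReal),
      Continues {s : ℂ | q < (s.re : EReal)} S (twist₀ z₀ t₀) (twist b z t) ρ ↔
        abscissa S (twist₀ z₀ t₀) (twist b z t) ρ ≤ q) ∧
    (∀ (κ : ℤ × (Fin k → ℤ)) (q : EReal),
      Continues {s : ℂ | q < (s.re : EReal)} S t₀ t (part b κ ρ) ↔
        abscissa S t₀ t (part b κ ρ) ≤ q) ∧
    ∀ x : ℝ × (Fin k → ℝ),
      -- the upper bound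
      (∀ y, abscissaTwist b S t₀ t ρ x y ≤ maximum b S t₀ t ρ x) ∧
      -- equality for all `y`, if the maximum is attained only once
      ((∃ κ, ∀ κ', κ' ≠ κ → abscissa S t₀ t (part b κ' ρ) - (pairing κ' x : ℝ) <
          abscissa S t₀ t (part b κ ρ) - (pairing κ x : ℝ)) →
        ∀ y, abscissaTwist b S t₀ t ρ x y = maximum b S t₀ t ρ x) ∧
      -- equality for almost all `y`, in both senses, for every `x`
      volume {y | abscissaTwist b S t₀ t ρ x y ≠ maximum b S t₀ t ρ x} = 0 ∧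
      IsMeagre {y | abscissaTwist b S t₀ t ρ x y ≠ maximum b S t₀ t ρ x} := by
  obtain ⟨B, hB⟩ := Run7.h456.bound_multiset
    (x := fun (w : Weight n) (p : ℕ) => value (t₀ p) (t p) w) ρ fun w _ => value_bound h w
  have hBp : ∀ κ, ∀ w ∈ part b κ ρ, ∀ p : Run7.h456.PS S,
      ‖value (t₀ p) (t p) w‖ ≤ ((p : ℕ) : ℝ) ^ B := fun κ w hw => hB w (part_le κ hw)
  set K : Finset (ℤ × (Fin k → ℤ)) := (ρ.map (central b)).toFinset with hK
  set f : (ℤ × (Fin k → ℤ)) → ℂ → ℂ := fun κ => fac S t₀ t (part b κ ρ) with hf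
  have hgood : ∀ κ, Run7.h456.GoodAt (B + 1) (f κ) := fun κ =>
    Run7.h456.meul_good (x := fun (w : Weight n) (p : ℕ) => value (t₀ p) (t p) w) (hBp κ)
  -- translation
  have hC : ∀ (u₀ : ℕ → ℂ) (u : ℕ → Fin n → ℂ) (ρ' : Multiset (Weight n)) (B' : ℝ),
      (∀ w ∈ ρ', ∀ p : Run7.h456.PS S, ‖value (u₀ p) (u p) w‖ ≤ ((p : ℕ) : ℝ) ^ B') →
      (∀ q : EReal, Continues {s : ℂ | q < (s.re : EReal)} S u₀ u ρ' ↔
        Run7.h456.ExtE q (fac S u₀ u ρ')) ∧
      abscissa S u₀ u ρ' = Run7.h456.absc (fac S u₀ u ρ') ∧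
      ∀ q : EReal, (Continues {s : ℂ | q < (s.re : EReal)} S u₀ u ρ' ↔ abscissa S u₀ u ρ' ≤ q) := by
    intro u₀ u ρ' B' hB'
    have h1 : ∀ q : EReal, Continues {s : ℂ | q < (s.re : EReal)} S u₀ u ρ' ↔
        Run7.h456.ExtE q (fac S u₀ u ρ') := fun q => continues_iff_untwisted hB' _
    have h2 : abscissa S u₀ u ρ' = Run7.h456.absc (fac S u₀ u ρ') := by
      unfold abscissa Run7.h456.absc
      congr 1
      ext q
      exact h1 q
    refine ⟨h1, h2, fun q => ?_⟩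
    rw [h1, h2, Run7.h456.absc_le_iff (c := B' + 1)]
    intro s hs
    exact (Run7.h456.meul_good
      (x := fun (w : Weight n) (p : ℕ) => value (u₀ p) (u p) w) hB' s hs).1
  refine ⟨fun z₀ z => ?_, fun κ => (hC _ _ _ B (hBp κ)).2.2, fun x => ?_⟩
  · obtain ⟨B', hB'⟩ := bound_twist (b := b) hB z₀ z
    exact (hC _ _ _ B' hB').2.2
  -- the constituents outside of `K`
  have hnotK : ∀ κ, κ ∉ K → abscissa S t₀ t (part b κ ρ) = ⊥ := by
    intro κ hκ
    have e : part b κ ρ = 0 := by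
      unfold part
      rw [Multiset.filter_eq_nil]
      rintro w hw rfl
      exact hκ (by
        rw [hK, Multiset.mem_toFinset]
        exact Multiset.mem_map_of_mem _ hw)
    rw [(hC _ _ _ B (hBp κ)).2.1, ← le_bot_iff,
      Run7.h456.absc_le_iff fun s hs => (hgood κ s hs).1, Run7.h456.extE_bot]
    have e2 : f κ = fun _ => 1 := by
      funext s
      simp only [hf, e, fac, Run7.h456.meul, Multiset.map_zero, Multiset.prod_zero]
    change Run7.h456.ExtAll (f κ)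
    rw [e2]
    exact Run7.h456.ExtAll.const 1
  -- the factors shifted by `κ·x`
  set g : (ℤ × (Fin k → ℤ)) → ℂ → ℂ := fun κ s => f κ (s + ((pairing κ x : ℝ) : ℂ)) with hg
  set c : ℝ := B + 1 + ∑ κ ∈ K, |pairing κ x| with hc
  have hgg : ∀ κ ∈ K, Run7.h456.GoodAt c (g κ) := by
    intro κ hκ
    refine Run7.h456.GoodAt.mono ?_ ((hgood κ).shift ((pairing κ x : ℝ) : ℂ))
    rw [ofReal_re, hc]
    have h1 : |pairing κ x| ≤ ∑ κ ∈ K, |pairing κ x| :=
      Finset.single_le_sum (f := fun κ => |pairing κ x|) (fun κ _ => abs_nonneg _) hκ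
    linarith [neg_abs_le (pairing κ x)]
  have hag : ∀ κ, Run7.h456.absc (g κ) = abscissa S t₀ t (part b κ ρ) - (pairing κ x : ℝ) := by
    intro κ
    rw [(hC _ _ _ B (hBp κ)).2.1]
    have h1 := Run7.h456.absc_shift (fun s hs => (hgood κ s hs).1) ((pairing κ x : ℝ) : ℂ)
    rwa [ofReal_re] at h1
  have hAT : ∀ y, abscissaTwist b S t₀ t ρ x y =
      Run7.h456.absc (fun s => ∏ κ ∈ K, g κ (s + (lin κ y : ℝ) * I)) := by
    intro y
    obtain ⟨B', hB'⟩ := bound_twist (b := b) hB (x.1 + y.1 * I) (fun j => x.2 j + y.2 j * I)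
    unfold abscissaTwist
    rw [(hC _ _ _ B' hB').2.1]
    congr 1
    funext s
    rw [fac_twist, ← hK]
    refine Finset.prod_congr rfl fun κ _ => ?_
    simp only [hg]
    congr 1
    rw [lin_apply]
    unfold dot pairing
    push_cast
    rw [mul_add, Finset.sum_congr rfl fun j _ => mul_add _ _ _, Finset.sum_add_distrib]
    have e1 : (∑ j, (κ.2 j : ℂ) * ((y.2 j : ℂ) * I)) = (∑ j, (κ.2 j : ℂ) * (y.2 j : ℂ)) * I := by
      rw [Finset.sum_mul]
      exact Finset.sum_congr rfl fun j _ => by ring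
    rw [e1]
    ring
  have hM : maximum b S t₀ t ρ x = K.sup fun κ => Run7.h456.absc (g κ) := by
    unfold maximum
    refine le_antisymm (iSup_le fun κ => ?_) (Finset.sup_le fun κ _ => ?_)
    · by_cases hκ : κ ∈ K
      · rw [← hag]
        exact Finset.le_sup (f := fun κ => Run7.h456.absc (g κ)) hκ
      · rw [hnotK κ hκ, EReal.bot_sub]
        exact bot_le
    · rw [hag]
      exact le_iSup (fun κ : ℤ × (Fin k → ℤ) =>
        abscissa S t₀ t (part b κ ρ) - (pairing κ x : ℝ)) κ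
  have hvol : (volume : Measure (ℝ × (Fin k → ℝ))).IsAddHaarMeasure :=
    Measure.prod.instIsAddHaarMeasure _ _
  obtain ⟨h1, h2, h3, h4⟩ := Run7.h456.absc_law (V := ℝ × (Fin k → ℝ)) volume K hgg (l := lin)
    (fun κ _ κ' _ hne heq => hne (lin_inj heq))
  simp only [← hAT, ← hM] at h1 h2 h3 h4
  refine ⟨h1, ?_, h3, h4⟩
  rintro ⟨κ, hκ⟩ y
  have hκK : κ ∈ K := by
    by_contra hcon
    have h5 := hκ (κ + (1, 0)) (by
      intro h6
      have h7 := congrArg Prod.fst h6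
      simp at h7)
    rw [hnotK κ hcon, EReal.bot_sub] at h5
    exact not_lt_bot h5
  have h6 := h2 κ hκK (fun κ' _ hne => by
    rw [hag, hag]
    exact hκ κ' hne) y
  refine le_antisymm (h1 y) ?_
  rw [h6, hM]
  refine Finset.sup_le fun κ' _ => ?_
  by_cases hne : κ' = κ
  · rw [hne]
  · rw [hag, hag]
    exact (hκ κ' hne).le

end Pool.Agent.Results.MP_eea520_nt.AbscissaLaw
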