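import Pool.Agent.Run7.h456.Levi2

/-!
# The question for a fixed `n` and the L-functions of the Levi subgroups

The definitions (`Weight`, `WeylInvariant`, `Tame`, `Continues`, `Negligible`; `twist₀`, `twist`, `LeviInvariant`,
`Homogeneous`, `Generates`, `Independent`) are in `Pool/Agent/Run7/h456/Weyl.lean`, `Pool/Agent/Run7/h456/Defs.lean` and
`Pool/Agent/Run7/h456/Defs2.lean`.

Let `M = GL_{a_1} × … × GL_{a_k} × GSp_{2m}` be a standard Levi subgroup of `GSp_{2n}`, given by the map
`b : {1, …, n} → {none, 1, …, k}`, and `σ` an automorphic representation of `M`, given by its Satake parameter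
`(t₀(p); t_1(p), …, t_n(p))` in the dual torus. For `(z₀, z) ∈ ℂ × ℂ^k` let `σ_z` be the twist of `σ` by
`|det|^{z_1}, …, |det|^{z_k}, |λ|^{z₀}` and `π_z` an automorphic constituent of the representation of `GSp_{2n}` induced
from `σ_z`: by Langlands every automorphic representation of `GSp_{2n}` is of this kind, with `σ` cuspidal.

**Theorem.** Let `n`, `M` and `σ` be fixed. The following are equivalent.

* For every irreducible representation `ρ` of `GSpin_{2n+1}(ℂ)` there is a family `y ↦ z + iA(y)`, `y ∈ ℝ^d`, with
  real linear forms `A_0, A_1, …, A_k` on `ℝ^d` such that `A_1, …, A_k` are linearly independent over `ℚ`, and the set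
  of the `y` for which `L_S(s, π_{z + iA(y)}, ρ)` has a meromorphic continuation to `ℂ` has positive (outer) Lebesgue
  measure or is of second category.
* For every algebraic representation `ρ'` of the dual group `GL_{a_1}(ℂ) × … × GL_{a_k}(ℂ) × GSpin_{2m+1}(ℂ)` of `M`
  and every `z` the L-function `L_S(s, σ_z, ρ')` has a meromorphic continuation to `ℂ`.

(More generally instead of the irreducible representations any generating set of Weyl invariant multisets of weights
can be taken.) For example: the family of the unitary twists with a fixed central character (`d = k`, `A_j(y) = y_j`,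
`A_0 = -(a_1 y_1 + … + a_k y_k)/2`), or a family with one real parameter, `A_j(y) = v_j y` with real numbers `v_j` linearly
independent over `ℚ`.

So, for every single `n`, Q1 for the representations of `GSp_{2n}` which are not cuspidal is equivalent to the
continuation of the L-functions of all cuspidal representations of all proper Levi subgroups and **all** representations
of the dual groups; in particular it contains Langlands' conjecture on continuation for `GL_a`, all `a ≤ n`, and all
representations of `GL_a(ℂ)`, and Q1 for the cuspidal representations of `GSp_{2m}`, all `m < n`. Conversely, a single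
L-function `L_S(s, σ, ρ')` without a continuation gives an irreducible `ρ` such that for all families as above
`L_S(s, π_{z + iA(y)}, ρ)` has no continuation, for almost all `y` in both senses.

Idea. If a product of vertical shifts of functions without zeros and poles for large real part continues for a set of
parameters which is not negligible then all factors continue (`Pool.Agent.Run7.h456.Large`). Therefore the parts of the
restrictions of the `ρ` to `M^` with a given central exponent give L-functions which continue. Let `θ` be a Levi
invariant multiset with one central exponent, and add to its weights a large multiple `ν` of a dominant central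
character of `M^`. A Weyl group element which maps a weight near `ν` to a weight near `ν` with the same central exponent
is in the Weyl group of `M^`; so `θ + ν` is exactly one isotypic part of the saturation of `θ + ν` under the Weyl group.
If the multiple is divisible by the orders of the Dirichlet characters in the central characters of the blocks the
shift by `ν` is a translation of the variable `s`.
-/

set_option autoImplicit false

open Filter Topology Complex MeasureTheory Run7.h456

namespace Pool.Agent.Results.MP_eea520_nt.LeviDescent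

/-- The set of all homogeneous Weyl invariant multisets generates. -/
theorem generates_homogeneous (n : ℕ) :
    Generates {ρ : Multiset (Weight (Fin n)) | WeylInvariant ρ ∧ Homogeneous ρ} := by
  classical
  intro ρ hρ
  refine ⟨0, (ρ.map Prod.fst).toFinset.val.map fun c => ρ.filter fun w => w.1 = c,
    fun σ hσ => absurd hσ (Multiset.notMem_zero σ), fun σ hσ => ?_, ?_⟩
  · obtain ⟨c, -, rfl⟩ := Multiset.mem_map.1 hσ
    refine ⟨⟨fun g => ?_, fun i => ?_⟩, c, fun w hw => (Multiset.mem_filter.1 hw).2⟩
    · conv_rhs => rw [← hρ.1 g, Multiset.filter_map]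
      rfl
    · conv_rhs => rw [← hρ.2 i, Multiset.filter_map]
      rfl
  · rw [Multiset.sum_zero, add_zero]
    ext v
    change _ = Multiset.count v (∑ c ∈ (ρ.map Prod.fst).toFinset, ρ.filter fun w => w.1 = c)
    rw [Multiset.count_sum']
    simp only [Multiset.count_filter]
    rw [Finset.sum_ite_eq]
    split_ifs with h
    · rfl
    · rw [Multiset.count_eq_zero]
      intro hv
      exact h (Multiset.mem_toFinset.2 (Multiset.mem_map_of_mem _ hv))

/-- **The question for `GSp_{2n}` and the L-functions of a Levi subgroup.** -/
theorem result {n k : ℕ} (b : Fin n → Option (Fin k)) {t₀ : ℕ → ℂ} {t : ℕ → Fin n → ℂ}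
    (h₀ : Tame t₀) (h : ∀ i, Tame fun p => t p i)
    -- the central characters of the blocks `GL` are Hecke characters of `ℚ`
    (hdet : ∀ j, ∃ N : ℕ, N ≠ 0 ∧ ∃ (χ : DirichletCharacter ℂ N) (w : ℂ), ∀ᶠ p : ℕ in atTop,
      p.Prime → ∏ i with b i = some j, t p i = χ (p : ZMod N) * (p : ℂ) ^ (-w))
    -- a generating set of representations of `GSpin_{2n+1}`
    {𝓡 : Set (Multiset (Weight (Fin n)))} (h𝓡 : ∀ ρ ∈ 𝓡, WeylInvariant ρ ∧ Homogeneous ρ)
    (hgen : Generates 𝓡) :
    (∀ ρ ∈ 𝓡, ∃ (z₀ : ℂ) (z : Fin k → ℂ) (d : ℕ) (A₀ : (Fin d → ℝ) →ₗ[ℝ] ℝ)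
      (A : Fin k → (Fin d → ℝ) →ₗ[ℝ] ℝ) (S : Finset ℕ), Independent A ∧
        ¬ Negligible {y : Fin d → ℝ |
          Continues S (twist₀ (z₀ + A₀ y * I) t₀) (twist b (fun j => z j + A j y * I) t) ρ}) ↔
    ∀ ρ' : Multiset (Weight (Fin n)), LeviInvariant b ρ' →
      ∀ (z₀ : ℂ) (z : Fin k → ℂ) (S : Finset ℕ), Continues S (twist₀ z₀ t₀) (twist b z t) ρ' := by
  constructor
  · intro H ρ' hρ' z₀ z S
    refine descent h₀ h hdet (fun ρ hρ _ S κ => ?_) hρ' z₀ z S
    obtain ⟨F, F', hF, hF', hFF⟩ := hgen ρ hρ
    have hadd : ∀ (σ σ' : Multiset (Weight (Fin n))) (s : ℂ),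
        meul S (vl t₀ t) ((σ + σ').filter fun w => central b w = κ) s =
          meul S (vl t₀ t) (σ.filter fun w => central b w = κ) s *
            meul S (vl t₀ t) (σ'.filter fun w => central b w = κ) s := by
      intro σ σ' s
      unfold meul
      rw [Multiset.filter_add, Multiset.map_add, Multiset.prod_add]
    have hsum : ∀ F : Multiset (Multiset (Weight (Fin n))), (∀ σ ∈ F, σ ∈ 𝓡) →
        ExtAll (meul S (vl t₀ t) (F.sum.filter fun w => central b w = κ)) := by
      intro F
      induction F using Multiset.induction_on with
      | empty =>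
        intro _
        refine (ExtAll.const 1).congr (c := 0) fun s _ => ?_
        simp [meul]
      | cons σ F ih =>
        intro hF
        have h1 := hF σ (Multiset.mem_cons_self σ F)
        obtain ⟨z₀, z, d, A₀, A, S₁, hA, hneg⟩ := H σ h1
        obtain ⟨c₀, hc₀⟩ := (h𝓡 σ h1).2
        have h2 := sep_parts h₀ h hc₀ hA hneg S κ
        refine (h2.mul (ih fun σ hσ => hF σ (Multiset.mem_cons_of_mem hσ))).congr (c := 0)
          fun s _ => ?_
        rw [Multiset.sum_cons, hadd]
    refine ((hsum F' hF').mul (hsum F hF).inv).congr (c := 0) fun s _ => ?_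
    rw [← hFF, hadd]
    refine mul_inv_cancel_right₀ ?_ _
    unfold meul
    refine Multiset.prod_ne_zero fun h0 => ?_
    obtain ⟨w, -, hw⟩ := Multiset.mem_map.1 h0
    exact exp_ne_zero _ hw
  · intro H ρ hρ
    refine ⟨0, 0, k, 0, fun j => LinearMap.proj j, ∅, fun m hm => ?_, fun hneg => ?_⟩
    · funext j
      have h1 := LinearMap.congr_fun hm (Pi.single j 1)
      simpa [LinearMap.sum_apply, Pi.single_apply] using h1
    · have e : {y : Fin k → ℝ | Continues ∅ (twist₀ (0 + (0 : (Fin k → ℝ) →ₗ[ℝ] ℝ) y * I) t₀)
          (twist b (fun j => (0 : Fin k → ℂ) j +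
            ((LinearMap.proj j : (Fin k → ℝ) →ₗ[ℝ] ℝ) y : ℝ) * I) t) ρ} = Set.univ :=
        Set.eq_univ_of_forall fun y => H ρ (h𝓡 ρ hρ).1.levi _ _ ∅
      rw [e] at hneg
      exact Measure.measure_univ_ne_zero.2 (NeZero.ne _) hneg.1

end Pool.Agent.Results.MP_eea520_nt.LeviDescent
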