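import Pool.Agent.Run7.h456.One3

/-!
# One L-function for every cuspidal datum, on a half-plane

The definitions (`Weight`, `WeylInvariant`, `IsHecke`, `Tame`, `Classes`, `CuspidalDatum`, `Continues`, `spin`;
`ContinuesTo`) are in `Pool/Agent/Run7/h456/Weyl.lean`, `Pool/Agent/Run7/h456/Defs.lean` and
`Pool/Agent/Run7/h456/Defs3.lean`.

A cuspidal datum `D` of rank `n` is a Levi subgroup `GL_{a_1} × … × GL_{a_k} × GSp_{2m}` of `GSp_{2n}` with a unitary
cuspidal representation `σ_1 ⊗ … ⊗ σ_k ⊗ τ`; `π_z`, `z ∈ ℂ^k`, are the automorphic constituents of the representation
induced from `σ_1 |det|^{z_1} ⊗ … ⊗ σ_k |det|^{z_k} ⊗ τ |λ|^{z₀}`, with `z₀ = -(a_1 z_1 + … + a_k z_k)/2`, which does not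
change the central character.

**Theorem.** Let `𝒩` be an infinite set of natural numbers, `x_1, x_2, …` positive real numbers which tend to infinity,
for example `x_j = j`, and `φ` a real function with `A - φ(A) → ∞` for `A → ∞`, for example a constant. The following
are equivalent.

* Q1: for all `n ≥ 1`, all representations `ρ` of `GSpin_{2n+1}(ℂ)` and all automorphic representations `π` of
  `GSp_{2n}` the Euler product `L_S(s, π, ρ)` has a meromorphic continuation to `ℂ`.
* For every cuspidal datum `D` with `k ≥ 1`, rank in `𝒩` and trivial central character there is **one** `y ∈ ℝ^k` such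
  that the spin L-function `L_S(s, π_{x+iy}, r)`, `x = (x_1, …, x_k)`, has a meromorphic continuation to the
  **half-plane** `Re s > φ(A)`, where `A = (a_1 x_1 + … + a_k x_k)/2`.

If `D` is tempered the Euler product converges absolutely for `Re s > 1 + A`. So it is enough to know one L-function of
one member of the family of every cuspidal datum, with an integral twist, say, and to go beyond the half-plane of
absolute convergence by an amount which tends to infinity, arbitrarily slowly; a fixed half-plane `Re s > q`, with any
real `q`, is enough as well. Conversely, a single L-function `L_S(s, π, ρ)` without a continuation to `ℂ` gives for every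
`q` a cuspidal datum `D` such that for all `y` the spin L-function of `π_{x+iy}` does not continue to `Re s > q`.

As in `SpinSuffices` the theorem holds for all sets of Satake families with the properties listed in `Classes`. While
unitary families need a set of parameters which is not negligible, a single parameter is enough away from the unitary
axis, since there the singularities of different constituents are separated by real shifts.

Idea. The spin L-function of `π_z` is a product of shifts of the L-functions of the constituents
`∧^{e_1} σ_1 ⊗ … ⊗ ∧^{e_k} σ_k ⊗ spin τ`. Suppose that some of them do not continue to `ℂ`, and let `β_e ∈ [-∞, ∞)` be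
their abscissas of continuation. Place the blocks `σ_j` at positions so far apart that one constituent dominates all
the others, that is `β_e - λ_e` has a unique maximum, where `λ_e` is the real shift. Fill the free positions by trivial
characters of `GL_1`, and by a character of `GL_1` at a far position to make the central character trivial. The
unique maximum stays a unique maximum, so the abscissa of continuation of the spin L-function of the large datum is
`A` minus a constant, if more and more trivial characters are added; this is a contradiction. The rest is the algebra
of `SpinSuffices`.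
-/

set_option autoImplicit false

open Filter Topology Complex MeasureTheory Run7.h456

namespace Pool.Agent.Results.MP_eea520_nt.OneTwist

/-- **Q1 is equivalent to the continuation of one L-function for every cuspidal datum to a half-plane.** -/
theorem result (C : Classes) {𝒩 : Set ℕ} (h𝒩 : 𝒩.Infinite) {x : ℕ → ℝ} (hx : ∀ j, 0 < x j)
    (hx' : Tendsto x atTop atTop) {φ : ℝ → ℝ} (hφ : Tendsto (fun A => A - φ A) atTop atTop) :
    (∀ (D : CuspidalDatum C) (z₀ : ℂ) (z : Fin D.k → ℂ) (ρ : Multiset (Weight D.Index)),
      1 ≤ D.rank → WeylInvariant ρ → ∀ S : Finset ℕ, Continues S (D.t₀ z₀) (D.t z) ρ) ↔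
    ∀ D : CuspidalDatum C, 0 < D.k → D.rank ∈ 𝒩 → D.CentralTrivial →
      ∃ (y : Fin D.k → ℝ) (S : Finset ℕ),
        ContinuesTo (φ (∑ j, (D.a j : ℝ) * x j / 2)) S
          (D.t₀ (-(∑ j, (D.a j : ℂ) * (x j + y j * I)) / 2)) (D.t fun j => x j + y j * I)
          (spin D.Index) := by
  constructor
  · intro H D hk _ _
    have hrank : 1 ≤ D.rank := by
      unfold CuspidalDatum.rank
      have h1 : D.a ⟨0, hk⟩ ≤ ∑ j, D.a j :=
        Finset.single_le_sum (f := D.a) (fun _ _ => Nat.zero_le _) (Finset.mem_univ _)
      have h2 := D.a_pos ⟨0, hk⟩
      omega
    refine ⟨0, ∅, (H D _ _ _ hrank ?_ ∅).to _⟩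
    -- the spin representation is Weyl invariant
    constructor
    · intro g
      have e : (fun f : D.Index → Bool =>
          permute g ((1, fun i => if f i then 1 else 0) : Weight D.Index)) =
          (fun f : D.Index → Bool => ((1, fun i => if f i then 1 else 0) : Weight D.Index)) ∘
            (⟨fun f i => f (g i), fun f i => f (g.symm i), fun f => by simp, fun f => by simp⟩ :
              (D.Index → Bool) ≃ (D.Index → Bool)) := by
        funext f
        rfl
      unfold spin
      rw [Multiset.map_map]
      change Multiset.map (fun f : D.Index → Bool =>
        permute g ((1, fun i => if f i then 1 else 0) : Weight D.Index)) _ = _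
      rw [e, ← Multiset.map_map, Multiset.map_univ_val_equiv]
    · intro i
      have e : (fun f : D.Index → Bool =>
          reflect i ((1, fun i => if f i then 1 else 0) : Weight D.Index)) =
          (fun f : D.Index → Bool => ((1, fun i => if f i then 1 else 0) : Weight D.Index)) ∘
            (⟨fun f => Function.update f i (!(f i)), fun f => Function.update f i (!(f i)),
              fun f => by simp, fun f => by simp⟩ : (D.Index → Bool) ≃ (D.Index → Bool)) := by
        funext f
        refine Prod.ext rfl (funext fun j => ?_)
        by_cases h : j = i
        · subst h
          simp only [reflect, Function.comp_apply, Equiv.coe_fn_mk, Function.update_self]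
          cases f j <;> simp
        · simp only [reflect, Function.comp_apply, Equiv.coe_fn_mk, Function.update_of_ne h]
      unfold spin
      rw [Multiset.map_map]
      change Multiset.map (fun f : D.Index → Bool =>
        reflect i ((1, fun i => if f i then 1 else 0) : Weight D.Index)) _ = _
      rw [e, ← Multiset.map_map, Multiset.map_univ_val_equiv]
  · intro H D z₀ z ρ _ hρ S
    exact all_of_spin Set.infinite_univ (spinHyp_of_one h𝒩 hx hx' hφ H) D z₀ z hρ S

end Pool.Agent.Results.MP_eea520_nt.OneTwist
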