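import Pool.Agent.Run7.h456.Comp5

/-!
# The question for all representations is equivalent to the question for the spin representation

The definitions (cuspidal data, Satake parameters, `Continues`, `ContinuesTo`, `WeylInvariant`, `spin`, `Negligible`,
`Independent`) are in `Pool/Agent/Run7/h456/Weyl.lean` and `Defs.lean`, `Defs2.lean`, `Defs3.lean` in the same folder.

**Theorem.** Let `𝒩` be an infinite set of natural numbers and `q(1), q(2), …` real numbers which tend to `-∞`,
arbitrarily slowly. The following are equivalent.

* Q1: for all `n ≥ 1`, all representations `ρ` of `GSpin_{2n+1}(ℂ)` and all automorphic representations `π` of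
  `GSp_{2n}` the Euler product `L_S(s, π, ρ)` has a meromorphic continuation to `ℂ`.
* For all `N ∈ 𝒩` and every cuspidal datum of `PGSp_{2N}` with `k ≥ 1` blocks `GL`, with the unitary Eisenstein
  representations `π_y`, `y ∈ ℝ^k`, there is a linear family `y = A(u)`, `u ∈ ℝ^d`, of parameters with coordinates
  `A_1, …, A_k` linearly independent over `ℚ` (for example all of `ℝ^k`, or one real parameter `u`) such that the set of
  the `u` for which `L_S(s, π_{A(u)}, r)`, `r` the **spin** representation, has a meromorphic continuation to the
  half-plane `Re s > q(N)` has positive (outer) Lebesgue measure or is of second category.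

So it is enough to know the natural representation `r`, trivial central characters, unitary and not cuspidal
representations, an infinite set of ranks, a one-parameter family for every cuspidal datum, in it a set of parameters
which is not negligible, and half-planes which grow with the rank arbitrarily slowly. Conversely, if Q1 fails for a
single triple `(n, ρ, π)` then for all large `N` there is an Eisenstein family `π_y` on `PGSp_{2N}` such that
`L_S(s, π_y, r)` has no continuation to `ℂ` for almost every `y`, in the sense of measure and of category.

Automorphic representations are given by their Satake parameters, through cuspidal data. The theorem holds for all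
sets of Satake families `cuspGL a`, `cuspGSp m` with the properties listed in `Classes`: polynomial bounds, Hecke
characters, central characters, and the weak lift from `GSp_{2m}` to `GL_{2m+1}`. For the sets of all unitary cuspidal
representations the last property is a theorem (Arthur; Cai, Friedberg and Kaplan); it holds trivially for `m = 0`,
so that for automorphic representations which are induced from products of groups `GL_a` and characters nothing is used.

Idea. The restriction of `r` to a Levi subgroup `GL_{a_1} × … × GL_{a_k} × GSp_{2m}` is the sum of the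
`∧^{e_1} ⊗ … ⊗ ∧^{e_k} ⊗ spin_m`, and different `e` have different central exponents, also after restriction to
the trivial central character. By the separation theorem for products of vertical shifts
(`Pool.Agent.Run7.h456.Large`: if the product continues for a set of twists which is not negligible then all factors
continue) all `L(s, ∧^{e_1} σ_1 × … × ∧^{e_k} σ_k × spin τ)` continue to `Re s > q(N)`; a character is added as a last
block to make the central character trivial, and trivial characters to obtain arbitrarily large ranks in `𝒩`, so
these L-functions continue to `ℂ`. The traces of these representations form two sets: a ring `𝒜`, for trivial `τ`,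
and `𝒜 · tr(spin τ)`. On the other hand the character of a Weyl invariant multiset of weights at the Satake class of
`π` is `x + y · tr(spin)` with `x` and `y` integral polynomials in the inverse of the central character and the
elementary symmetric functions of `t_i + t_i⁻¹`; these are in `𝒜`, as `∏ (1 + t_i X)(1 + t_i⁻¹ X)` is for the blocks
`GL_a` and, by the weak lift, for the block `GSp_{2m}`.
-/

set_option autoImplicit false

open Filter Topology Complex MeasureTheory Run7.h456

namespace Pool.Agent.Results.MP_eea520_nt.SpinSuffices

theorem spin_invariant (ι : Type) [Fintype ι] [DecidableEq ι] : WeylInvariant (spin ι) := by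
  constructor
  · intro g
    have e : (fun f : ι → Bool => permute g ((1, fun i => if f i then 1 else 0) : Weight ι)) =
        (fun f : ι → Bool => ((1, fun i => if f i then 1 else 0) : Weight ι)) ∘
          (⟨fun f i => f (g i), fun f i => f (g.symm i), fun f => by simp, fun f => by simp⟩ :
            (ι → Bool) ≃ (ι → Bool)) := by
      funext f
      rfl
    unfold spin
    rw [Multiset.map_map]
    change Multiset.map (fun f : ι → Bool =>
      permute g ((1, fun i => if f i then 1 else 0) : Weight ι)) _ = _
    rw [e, ← Multiset.map_map, Multiset.map_univ_val_equiv]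
  · intro i
    have e : (fun f : ι → Bool => reflect i ((1, fun i => if f i then 1 else 0) : Weight ι)) =
        (fun f : ι → Bool => ((1, fun i => if f i then 1 else 0) : Weight ι)) ∘
          (⟨fun f => Function.update f i (!(f i)), fun f => Function.update f i (!(f i)),
            fun f => by simp, fun f => by simp⟩ : (ι → Bool) ≃ (ι → Bool)) := by
      funext f
      refine Prod.ext rfl (funext fun j => ?_)
      by_cases h : j = i
      · subst h
        simp only [reflect, Function.comp_apply, Equiv.coe_fn_mk, Function.update_self]
        cases f j <;> simp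
      · simp only [reflect, Function.comp_apply, Equiv.coe_fn_mk, Function.update_of_ne h]
    unfold spin
    rw [Multiset.map_map]
    change Multiset.map (fun f : ι → Bool =>
      reflect i ((1, fun i => if f i then 1 else 0) : Weight ι)) _ = _
    rw [e, ← Multiset.map_map, Multiset.map_univ_val_equiv]

/-- The smallest example, in which `cuspGL 1` and `cuspGSp 0` consist of the unitary Hecke characters of `ℚ` and the
other sets are empty: the properties listed in `Classes` are consistent. -/
theorem classes_nonempty : Nonempty Classes := by
  have htame : ∀ μ : ℕ → ℂ, IsHecke μ → Tame μ := by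
    rintro μ ⟨N, hN, χ, y, hχ⟩
    refine ⟨0, ?_⟩
    filter_upwards [hχ, eventually_gt_atTop N] with p h1 h2 hp
    have hcop : Nat.Coprime p N := by
      rw [hp.coprime_iff_not_dvd]
      intro hd
      exact absurd (Nat.le_of_dvd (Nat.pos_of_ne_zero hN) hd) (not_le.2 h2)
    have hu : IsUnit (p : ZMod N) := (ZMod.isUnit_iff_coprime p N).2 hcop
    obtain ⟨u, hu⟩ := hu
    have h3 : ‖μ p‖ = 1 := by
      rw [h1 hp, norm_mul, ← hu, DirichletCharacter.unit_norm_eq_one,
        norm_natCast_cpow_of_pos hp.pos]
      simp
    rw [h3]
    simp
  refine ⟨{
    cuspGL := fun a => {σ | a = 1 ∧ ∃ μ, IsHecke μ ∧ σ = fun p _ => μ p}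
    cuspGSp := fun m => {τ | m = 0 ∧ IsHecke τ.1}
    tame_GL := ?_
    tame_GSp := ?_
    hecke := fun μ hμ => ⟨rfl, μ, hμ, rfl⟩
    one := ⟨rfl, IsHecke.one⟩
    central_GL := ?_
    central_GSp := ?_
    lift := ?_ }⟩
  · rintro a σ ⟨rfl, μ, hμ, rfl⟩ i
    exact htame μ hμ
  · rintro m τ ⟨rfl, h⟩
    exact ⟨htame _ h, fun i => i.elim0⟩
  · rintro a σ ⟨rfl, μ, hμ, rfl⟩
    simpa using hμ
  · rintro m τ ⟨rfl, h⟩
    have h1 := h.mul h
    simpa [pow_two] using h1
  · rintro m τ ⟨rfl, h⟩
    refine ⟨1, fun _ => 1, fun _ _ _ => 1, fun _ => 0, fun _ => ⟨rfl, fun _ => 1, IsHecke.one, rfl⟩,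
      Eventually.of_forall fun p _ => ?_⟩
    simp

/-- **Q1 for all representations is equivalent to Q1 for the spin representation.** -/
theorem result (C : Classes) {𝒩 : Set ℕ} (h𝒩 : 𝒩.Infinite) {q : ℕ → ℝ}
    (hq : Tendsto q atTop atBot) :
    (∀ (D : CuspidalDatum C) (z₀ : ℂ) (z : Fin D.k → ℂ) (ρ : Multiset (Weight D.Index)),
      1 ≤ D.rank → WeylInvariant ρ → ∀ S : Finset ℕ, Continues S (D.t₀ z₀) (D.t z) ρ) ↔
    ∀ D : CuspidalDatum C, 0 < D.k → D.rank ∈ 𝒩 → D.CentralTrivial →
      ∃ (d : ℕ) (A : Fin D.k → (Fin d → ℝ) →ₗ[ℝ] ℝ) (S : Finset ℕ), Independent A ∧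
        ¬ Negligible {y : Fin d → ℝ |
          ContinuesTo (q D.rank) S (D.t₀ (-(∑ j, (D.a j : ℂ) * A j y) / 2 * I))
            (D.t fun j => A j y * I) (spin D.Index)} := by
  constructor
  · intro H D hk _ _
    refine ⟨D.k, fun j => LinearMap.proj j, ∅, fun m hm => ?_, fun hneg => ?_⟩
    · funext j
      have h1 := LinearMap.congr_fun hm (Pi.single j 1)
      simpa [LinearMap.sum_apply, Pi.single_apply] using h1
    have hrank : 1 ≤ D.rank := by
      unfold CuspidalDatum.rank
      have h1 : D.a ⟨0, hk⟩ ≤ ∑ j, D.a j :=
        Finset.single_le_sum (f := D.a) (fun _ _ => Nat.zero_le _) (Finset.mem_univ _)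
      have h2 := D.a_pos ⟨0, hk⟩
      omega
    have e : {y : Fin D.k → ℝ |
        ContinuesTo (q D.rank) ∅ (D.t₀ (-(∑ j, (D.a j : ℂ) *
          ((LinearMap.proj j : (Fin D.k → ℝ) →ₗ[ℝ] ℝ) y : ℝ)) / 2 * I))
          (D.t fun j => ((LinearMap.proj j : (Fin D.k → ℝ) →ₗ[ℝ] ℝ) y : ℝ) * I)
          (spin D.Index)} = Set.univ :=
      Set.eq_univ_of_forall fun y => (H D _ _ _ hrank (spin_invariant _) ∅).to _
    rw [e] at hneg
    exact Measure.measure_univ_ne_zero.2 (NeZero.ne _) hneg.1
  · intro H D z₀ z ρ _ hρ S
    exact all_of_spin Set.infinite_univ (spinHyp_of_fam h𝒩 hq H) D z₀ z hρ S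

end Pool.Agent.Results.MP_eea520_nt.SpinSuffices
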